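import Pool.Agent.Helper52.Grid.Defs

/-! # (U2) from used edges to tours -/

namespace Pool.Agent.Helper37.Grid

open Pool.Agent.Helper52.Grid SimpleGraph

theorem next_iff {g : ℕ → Pt} {n : ℕ} (hn : 2 ≤ n) (hg : g n = g 0) {a b : Pt} :
    Next ((List.range n).map g) a b ↔ ∃ i, i < n ∧ g i = a ∧ g (i + 1) = b := by
  set T : List Pt := (List.range n).map g with hT
  have hlen : T.length = n := by simp [hT]
  have hget : ∀ j, j < n → T[j]? = some (g j) := by
    intro j hj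
    simp [hT, List.getElem?_map, List.getElem?_range hj]
  have hmod : ∀ k, g ((1 + k) % n) = g (k % n + 1) := by
    intro k
    have hk : k % n < n := Nat.mod_lt _ (by omega)
    have h1 : (1 + k) % n = (k % n + 1) % n := by
      rw [Nat.mod_add_mod, add_comm]
    rw [h1]
    rcases Nat.lt_or_ge (k % n + 1) n with h2 | h2
    · rw [Nat.mod_eq_of_lt h2]
    · have h3 : k % n + 1 = n := by omega
      rw [h3, Nat.mod_self, hg]
  constructor
  · rintro ⟨l, k, hk⟩
    have e0 : (T.rotate k)[0]? = T[(0 + k) % T.length]? :=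
      List.getElem?_rotate (by omega)
    have e1 : (T.rotate k)[1]? = T[(1 + k) % T.length]? :=
      List.getElem?_rotate (by omega)
    rw [hk, hlen] at e0 e1
    rw [hget _ (Nat.mod_lt _ (by omega))] at e0 e1
    simp only [List.getElem?_cons_zero, List.getElem?_cons_succ, Option.some.injEq,
      zero_add] at e0 e1
    refine ⟨k % n, Nat.mod_lt _ (by omega), e0.symm, ?_⟩
    rw [← hmod, ← e1]
  · rintro ⟨i, hi, rfl, rfl⟩
    refine ⟨(T.rotate i).drop 2, i, ?_⟩
    apply List.ext_getElem?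
    intro j
    rcases j with _ | _ | j
    · rw [List.getElem?_rotate (by omega), hlen, hget _ (Nat.mod_lt _ (by omega))]
      simp [Nat.mod_eq_of_lt hi]
    · rw [List.getElem?_rotate (by omega), hlen, hget _ (Nat.mod_lt _ (by omega))]
      simp only [zero_add, List.getElem?_cons_succ, List.getElem?_cons_zero, Option.some.injEq]
      rw [hmod, Nat.mod_eq_of_lt hi]
    · simp only [List.getElem?_cons_succ, List.getElem?_drop]
      congr 1
      omega

/-- the used edge from `a` to its right or lower neighbour `b` -/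
def UU (hU vU : ℕ → ℕ → Bool) (a b : Pt) : Prop :=
  (b = (a.1 + 1, a.2) ∧ hU a.1 a.2 = true) ∨ (b = (a.1, a.2 + 1) ∧ vU a.1 a.2 = true)

/-- the graph of the used edges -/
def GG (h v : ℕ → ℕ → ℕ) (hU vU : ℕ → ℕ → Bool) : SimpleGraph {a : Pt // Vert h v a} where
  Adj a b := UU hU vU a.1 b.1 ∨ UU hU vU b.1 a.1
  symm := ⟨fun _ _ h => Or.symm h⟩
  loopless := ⟨by
    rintro ⟨⟨x, y⟩, _⟩ h
    rcases h with (⟨h, -⟩ | ⟨h, -⟩) | (⟨h, -⟩ | ⟨h, -⟩) <;> simp at h⟩

theorem useConv : S_UseConv := by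
  intro h v N hU vU hB ⟨a0, ha0⟩ hUse
  classical
  have hxy : ∀ a, Vert h v a → 1 ≤ a.1 ∧ 1 ≤ a.2 ∧ a.1 ≤ N ∧ a.2 ≤ N := by
    rintro ⟨x, y⟩ ha
    rcases ha with h1 | h1 | h1 | h1
    · simp only at h1 ⊢
      have h2 := hB.hN x y (by omega)
      refine ⟨Nat.one_le_iff_ne_zero.mpr ?_, Nat.one_le_iff_ne_zero.mpr ?_, by omega, by omega⟩
      · rintro rfl; have := hB.hx y; omega
      · rintro rfl; have := hB.hy x; omega
    · simp only at h1 ⊢
      have h2 := hB.hN (x - 1) y (by omega)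
      refine ⟨Nat.one_le_iff_ne_zero.mpr ?_, Nat.one_le_iff_ne_zero.mpr ?_, by omega, by omega⟩
      · rintro rfl; have := hB.hx y; simp at h1; omega
      · rintro rfl; have := hB.hy (x - 1); omega
    · simp only at h1 ⊢
      have h2 := hB.vN x y (by omega)
      refine ⟨Nat.one_le_iff_ne_zero.mpr ?_, Nat.one_le_iff_ne_zero.mpr ?_, by omega, by omega⟩
      · rintro rfl; have := hB.vx y; omega
      · rintro rfl; have := hB.vy x; omega
    · simp only at h1 ⊢
      have h2 := hB.vN x (y - 1) (by omega)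
      refine ⟨Nat.one_le_iff_ne_zero.mpr ?_, Nat.one_le_iff_ne_zero.mpr ?_, by omega, by omega⟩
      · rintro rfl; have := hB.vx (y - 1); omega
      · rintro rfl; have := hB.vy x; simp at h1; omega
  have hfin : Finite {a : Pt // Vert h v a} := by
    have : ({a : Pt | Vert h v a}).Finite := by
      refine ((Finset.range (N + 1)) ×ˢ (Finset.range (N + 1))).finite_toSet.subset ?_
      intro a ha
      have := hxy a ha
      simp only [Finset.coe_product, Set.mem_prod, Finset.mem_coe, Finset.mem_range]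
      omega
    exact this.to_subtype
  set Γ := GG h v hU vU with hΓ
  have hadj : ∀ a b, Γ.Adj a b ↔ UU hU vU a.1 b.1 ∨ UU hU vU b.1 a.1 := fun a b => Iff.rfl
  -- degrees
  have hdeg : ∀ a, (Γ.neighborSet a).ncard = 2 := by
    rintro ⟨⟨x', y'⟩, ha⟩
    obtain ⟨hx1, hy1, -, -⟩ := hxy _ ha
    obtain ⟨x, rfl⟩ : ∃ x, x' = x + 1 := ⟨x' - 1, by simp only at hx1; omega⟩
    obtain ⟨y, rfl⟩ : ∃ y, y' = y + 1 := ⟨y' - 1, by simp only at hy1; omega⟩
    have hd := hUse.deg x y ha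
    have key : ∀ b : {a : Pt // Vert h v a}, Γ.Adj ⟨(x + 1, y + 1), ha⟩ b ↔
        (b.1 = (x + 2, y + 1) ∧ hU (x + 1) (y + 1) = true) ∨
        (b.1 = (x, y + 1) ∧ hU x (y + 1) = true) ∨
        (b.1 = (x + 1, y + 2) ∧ vU (x + 1) (y + 1) = true) ∨
        (b.1 = (x + 1, y) ∧ vU (x + 1) y = true) := by
      rintro ⟨⟨p, q⟩, hb⟩
      rw [hadj]
      simp only [UU, Prod.mk.injEq]
      constructor
      · rintro ((⟨⟨h1, h2⟩, h3⟩ | ⟨⟨h1, h2⟩, h3⟩) | (⟨⟨h1, h2⟩, h3⟩ | ⟨⟨h1, h2⟩, h3⟩))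
        · exact Or.inl ⟨⟨h1, h2⟩, h3⟩
        · exact Or.inr (Or.inr (Or.inl ⟨⟨h1, h2⟩, h3⟩))
        · have e1 : p = x := by omega
          have e2 : q = y + 1 := by omega
          subst e1; subst e2
          exact Or.inr (Or.inl ⟨⟨rfl, rfl⟩, h3⟩)
        · have e1 : p = x + 1 := by omega
          have e2 : q = y := by omega
          subst e1; subst e2
          exact Or.inr (Or.inr (Or.inr ⟨⟨rfl, rfl⟩, h3⟩))
      · rintro (⟨⟨h1, h2⟩, h3⟩ | ⟨⟨h1, h2⟩, h3⟩ | ⟨⟨h1, h2⟩, h3⟩ | ⟨⟨h1, h2⟩, h3⟩)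
        · exact Or.inl (Or.inl ⟨⟨h1, h2⟩, h3⟩)
        · subst h1; subst h2
          exact Or.inr (Or.inl ⟨⟨rfl, rfl⟩, h3⟩)
        · exact Or.inl (Or.inr ⟨⟨h1, h2⟩, h3⟩)
        · subst h1; subst h2
          exact Or.inr (Or.inr ⟨⟨rfl, rfl⟩, h3⟩)
    have v1 : hU (x + 1) (y + 1) = true → Vert h v (x + 2, y + 1) :=
      fun hh => (hUse.hV (x + 1) (y + 1) hh).2
    have v2 : hU x (y + 1) = true → Vert h v (x, y + 1) := fun hh => (hUse.hV x (y + 1) hh).1
    have v3 : vU (x + 1) (y + 1) = true → Vert h v (x + 1, y + 2) :=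
      fun hh => (hUse.vV (x + 1) (y + 1) hh).2
    have v4 : vU (x + 1) y = true → Vert h v (x + 1, y) := fun hh => (hUse.vV (x + 1) y hh).1
    have build : ∀ (p q : Pt) (hp : Vert h v p) (hq : Vert h v q), p ≠ q →
        (∀ b : {a : Pt // Vert h v a}, Γ.Adj ⟨(x + 1, y + 1), ha⟩ b ↔ b.1 = p ∨ b.1 = q) →
        (Γ.neighborSet ⟨(x + 1, y + 1), ha⟩).ncard = 2 := by
      intro p q hp hq hpq hb
      rw [Set.ncard_eq_two]
      refine ⟨⟨p, hp⟩, ⟨q, hq⟩, fun e => hpq (congrArg Subtype.val e), ?_⟩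
      ext b
      rw [SimpleGraph.mem_neighborSet, hb]
      simp only [Set.mem_insert_iff, Set.mem_singleton_iff, Subtype.ext_iff]
    rcases h1 : hU (x + 1) (y + 1) with _ | _ <;> rcases h2 : hU x (y + 1) with _ | _ <;>
      rcases h3 : vU (x + 1) (y + 1) with _ | _ <;> rcases h4 : vU (x + 1) y with _ | _ <;>
      simp only [h1, h2, h3, h4, Bool.toNat_true, Bool.toNat_false] at hd key <;>
      first
        | (exfalso; omega)
        | skip
    · exact build _ _ (v3 h3) (v4 h4) (by simp) (fun b => by rw [key]; simp)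
    · exact build _ _ (v2 h2) (v4 h4) (by simp) (fun b => by rw [key]; simp)
    · exact build _ _ (v2 h2) (v3 h3) (by simp) (fun b => by rw [key]; simp)
    · exact build _ _ (v1 h1) (v4 h4) (by simp) (fun b => by rw [key]; simp)
    · exact build _ _ (v1 h1) (v3 h3) (by simp) (fun b => by rw [key]; simp)
    · exact build _ _ (v1 h1) (v2 h2) (by simp) (fun b => by rw [key]; simp)
  have hcyc : Γ.IsCycles := fun a _ => hdeg a
  -- connectedness
  have hreach : ∀ b : {a : Pt // Vert h v a}, Γ.Reachable ⟨a0, ha0⟩ b := by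
    rintro ⟨b, hb⟩
    obtain ⟨hb', hr⟩ : ∃ hb' : Vert h v b, Γ.Reachable ⟨a0, ha0⟩ ⟨b, hb'⟩ := by
      refine hUse.cut (fun p => ∃ hp : Vert h v p, Γ.Reachable ⟨a0, ha0⟩ ⟨p, hp⟩) ?_ ?_ a0 b ha0 hb
        ⟨ha0, Reachable.refl _⟩
      · intro x y hh
        obtain ⟨w1, w2⟩ := hUse.hV x y hh
        have hA : Γ.Adj ⟨(x, y), w1⟩ ⟨(x + 1, y), w2⟩ := Or.inl (Or.inl ⟨rfl, hh⟩)
        exact ⟨fun ⟨_, hr⟩ => ⟨w2, hr.trans hA.reachable⟩,
          fun ⟨_, hr⟩ => ⟨w1, hr.trans hA.symm.reachable⟩⟩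
      · intro x y hh
        obtain ⟨w1, w2⟩ := hUse.vV x y hh
        have hA : Γ.Adj ⟨(x, y), w1⟩ ⟨(x, y + 1), w2⟩ := Or.inl (Or.inr ⟨rfl, hh⟩)
        exact ⟨fun ⟨_, hr⟩ => ⟨w2, hr.trans hA.reachable⟩,
          fun ⟨_, hr⟩ => ⟨w1, hr.trans hA.symm.reachable⟩⟩
    exact hr
  obtain ⟨p, hp, hpv⟩ := hcyc.exists_cycle_toSubgraph_verts_eq_connectedComponentSupp
    (v := ⟨a0, ha0⟩) (c := Γ.connectedComponentMk ⟨a0, ha0⟩) (by simp)
    (Set.nonempty_of_ncard_ne_zero (by rw [hdeg]; norm_num))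
  have hall : ∀ b, b ∈ p.support := by
    intro b
    rw [← Walk.mem_verts_toSubgraph, hpv, ConnectedComponent.mem_supp_iff,
      ConnectedComponent.eq]
    exact (hreach b).symm
  have h3 := hp.three_le_length
  set n := p.length with hn
  set g : ℕ → Pt := fun i => (p.getVert i).1 with hgdef
  have hg : g n = g 0 := by simp [hgdef, hn]
  have hsub : ∀ a b, p.toSubgraph.Adj a b ↔ Γ.Adj a b := by
    intro a b
    have h1 : p.toSubgraph.neighborSet a = Γ.neighborSet a := by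
      refine Set.eq_of_subset_of_ncard_le (p.toSubgraph.neighborSet_subset a) ?_ (Set.toFinite _)
      rw [hdeg, hp.ncard_neighborSet_toSubgraph_eq_two (hall a)]
    exact Set.ext_iff.mp h1 b
  have hnext : ∀ a b, Next ((List.range n).map g) a b ↔ ∃ i, i < n ∧ g i = a ∧ g (i + 1) = b :=
    fun a b => next_iff (by omega) hg
  have hcon : ∀ a b : {a : Pt // Vert h v a},
      Con ((List.range n).map g) a.1 b.1 ↔ Γ.Adj a b := by
    intro a b
    rw [← hsub, Walk.toSubgraph_adj_iff, Pool.Agent.Helper52.Grid.Con, hnext, hnext]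
    constructor
    · rintro (⟨i, hi, e1, e2⟩ | ⟨i, hi, e1, e2⟩)
      · refine ⟨i, ?_, hi⟩
        rw [Subtype.ext e1, Subtype.ext e2]
      · refine ⟨i, ?_, hi⟩
        rw [Subtype.ext e1, Subtype.ext e2, Sym2.eq_swap]
    · rintro ⟨i, e, hi⟩
      rw [Sym2.eq_iff] at e
      rcases e with ⟨e1, e2⟩ | ⟨e1, e2⟩
      · exact Or.inl ⟨i, hi, congrArg Subtype.val e1, congrArg Subtype.val e2⟩
      · exact Or.inr ⟨i, hi, congrArg Subtype.val e1, congrArg Subtype.val e2⟩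
  have hmem : ∀ a, a ∈ (List.range n).map g ↔ Vert h v a := by
    intro a
    constructor
    · intro ha
      obtain ⟨i, -, rfl⟩ := List.mem_map.mp ha
      exact (p.getVert i).2
    · intro ha
      obtain ⟨i, hi, hin⟩ := Walk.mem_support_iff_exists_getVert.mp (hall ⟨a, ha⟩)
      rcases Nat.lt_or_ge i n with h1 | h1
      · exact List.mem_map.mpr ⟨i, List.mem_range.mpr h1, congrArg Subtype.val hi⟩
      · have h2 : i = n := by omega
        refine List.mem_map.mpr ⟨0, List.mem_range.mpr (by omega), ?_⟩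
        rw [← hg, ← h2]
        exact congrArg Subtype.val hi
  have hconV : ∀ a b, Con ((List.range n).map g) a b → Vert h v a ∧ Vert h v b := by
    rintro a b (hh | hh)
    · obtain ⟨i, -, rfl, rfl⟩ := (hnext _ _).mp hh
      exact ⟨(p.getVert i).2, (p.getVert (i + 1)).2⟩
    · obtain ⟨i, -, rfl, rfl⟩ := (hnext _ _).mp hh
      exact ⟨(p.getVert (i + 1)).2, (p.getVert i).2⟩
  have hUcost : ∀ x y, hU x y = true → h x y = 0 ∨ h x y = 2 := by
    intro x y hh
    by_contra hc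
    push Not at hc
    rw [hUse.h4 x y hc.1 hc.2] at hh
    exact Bool.false_ne_true hh
  have vUcost : ∀ x y, vU x y = true → v x y = 0 ∨ v x y = 2 := by
    intro x y hh
    by_contra hc
    push Not at hc
    rw [hUse.v4 x y hc.1 hc.2] at hh
    exact Bool.false_ne_true hh
  have hUe : ∀ a b, UU hU vU a b → Edge h v 0 a b ∨ Edge h v 2 a b := by
    rintro a b (⟨e, hh⟩ | ⟨e, hh⟩)
    · rcases hUcost _ _ hh with h1 | h1
      · exact Or.inl (Or.inl (Or.inl ⟨e, h1⟩))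
      · exact Or.inr (Or.inl (Or.inl ⟨e, h1⟩))
    · rcases vUcost _ _ hh with h1 | h1
      · exact Or.inl (Or.inl (Or.inr ⟨e, h1⟩))
      · exact Or.inr (Or.inl (Or.inr ⟨e, h1⟩))
  refine ⟨(List.range n).map g, ⟨?_, hmem, ?_, ?_⟩, by simpa using h3, ?_, ?_⟩
  · refine List.Nodup.map_on ?_ List.nodup_range
    intro i hi j hj hij
    rw [List.mem_range] at hi hj
    exact hp.getVert_injOn' (by simp only [Set.mem_ofPred_eq]; omega)
      (by simp only [Set.mem_ofPred_eq]; omega) (Subtype.ext hij)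
  · intro a b hh
    have hV := hconV a b (Or.inl hh)
    have hA : Γ.Adj ⟨a, hV.1⟩ ⟨b, hV.2⟩ := (hcon ⟨a, hV.1⟩ ⟨b, hV.2⟩).mp (Or.inl hh)
    rcases hA with h1 | h1
    · exact hUe a b h1
    · rcases hUe b a h1 with h2 | h2
      · exact Or.inl h2.symm
      · exact Or.inr h2.symm
  · have main : ∀ a b, Step h v 0 a b → Con ((List.range n).map g) a b := by
      rintro a b (⟨e, hh⟩ | ⟨e, hh⟩)
      · have h1 := hUse.h0 _ _ hh
        obtain ⟨w1, w2⟩ := hUse.hV _ _ h1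
        subst e
        exact (hcon ⟨a, w1⟩ ⟨_, w2⟩).mpr (Or.inl (Or.inl ⟨rfl, h1⟩))
      · have h1 := hUse.v0 _ _ hh
        obtain ⟨w1, w2⟩ := hUse.vV _ _ h1
        subst e
        exact (hcon ⟨a, w1⟩ ⟨_, w2⟩).mpr (Or.inl (Or.inr ⟨rfl, h1⟩))
    rintro a b (hh | hh)
    · exact main a b hh
    · exact (main b a hh).symm
  · intro x y
    constructor
    · intro hh
      obtain ⟨w1, w2⟩ := hUse.hV x y hh
      exact (hcon ⟨(x, y), w1⟩ ⟨(x + 1, y), w2⟩).mpr (Or.inl (Or.inl ⟨rfl, hh⟩))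
    · intro hh
      obtain ⟨w1, w2⟩ := hconV _ _ hh
      have hA := (hcon ⟨(x, y), w1⟩ ⟨(x + 1, y), w2⟩).mp hh
      rcases hA with (⟨-, h1⟩ | ⟨h1, -⟩) | (⟨h1, -⟩ | ⟨h1, -⟩)
      · exact h1
      · simp at h1
      · simp only [Prod.mk.injEq] at h1; omega
      · simp only [Prod.mk.injEq] at h1; omega
  · intro x y
    constructor
    · intro hh
      obtain ⟨w1, w2⟩ := hUse.vV x y hh
      exact (hcon ⟨(x, y), w1⟩ ⟨(x, y + 1), w2⟩).mpr (Or.inl (Or.inr ⟨rfl, hh⟩))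
    · intro hh
      obtain ⟨w1, w2⟩ := hconV _ _ hh
      have hA := (hcon ⟨(x, y), w1⟩ ⟨(x, y + 1), w2⟩).mp hh
      rcases hA with (⟨h1, -⟩ | ⟨-, h1⟩) | (⟨h1, -⟩ | ⟨h1, -⟩)
      · simp at h1
      · exact h1
      · simp only [Prod.mk.injEq] at h1; omega
      · simp only [Prod.mk.injEq] at h1; omega

end Pool.Agent.Helper37.Grid
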